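import Mathlib
import Pool.Agent.N290.RJ.Stm
import Pool.Agent.N290.RJ.Un

/-!
# Approximation near boundary points: the metric, the cut-off and the small integrals (helper655)
-/

set_option autoImplicit false

open Complex MeasureTheory Set Filter Topology
open scoped ENNReal

namespace Pool.Agent.N655.RJ

open Pool.Agent.N290.RJ

variable {d : ℕ}

/-- Cauchy-Schwarz -/
theorem cs (z w : E d) : ‖ip z w‖ ≤ nm z * nm w := by
  have h1 : ‖ip z w‖ ≤ ‖z.1‖ * ‖w.1‖ + ∑ i, ‖z.2 i‖ * ‖w.2 i‖ := by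
    unfold ip
    refine (norm_add_le _ _).trans (add_le_add ?_ ?_)
    · rw [norm_mul, RCLike.norm_conj]
    · refine (norm_sum_le _ _).trans (Finset.sum_le_sum fun i _ => ?_)
      rw [norm_mul, RCLike.norm_conj]
  have h2 : ∑ i, ‖z.2 i‖ * ‖w.2 i‖ ≤
      Real.sqrt (∑ i, ‖z.2 i‖ ^ 2) * Real.sqrt (∑ i, ‖w.2 i‖ ^ 2) :=
    Real.sum_mul_le_sqrt_mul_sqrt _ _ _
  refine h1.trans ?_
  unfold nm
  rw [← Real.sqrt_mul (N_nonneg z)]
  apply Real.le_sqrt_of_sq_le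
  unfold N
  have hA : Real.sqrt (∑ i, ‖z.2 i‖ ^ 2) ^ 2 = ∑ i, ‖z.2 i‖ ^ 2 :=
    Real.sq_sqrt (Finset.sum_nonneg fun i _ => by positivity)
  have hB : Real.sqrt (∑ i, ‖w.2 i‖ ^ 2) ^ 2 = ∑ i, ‖w.2 i‖ ^ 2 :=
    Real.sq_sqrt (Finset.sum_nonneg fun i _ => by positivity)
  have h3 : 0 ≤ ∑ i, ‖z.2 i‖ * ‖w.2 i‖ := Finset.sum_nonneg fun i _ => by positivity
  have h4 : 0 ≤ ‖z.1‖ * ‖w.1‖ := by positivity
  rw [← hA, ← hB]
  generalize Real.sqrt (∑ i, ‖z.2 i‖ ^ 2) = P at *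
  generalize Real.sqrt (∑ i, ‖w.2 i‖ ^ 2) = Q at *
  have h5 : (‖z.1‖ * ‖w.1‖ + ∑ i, ‖z.2 i‖ * ‖w.2 i‖) ^ 2 ≤ (‖z.1‖ * ‖w.1‖ + P * Q) ^ 2 :=
    pow_le_pow_left₀ (by positivity) (by linarith) 2
  nlinarith [sq_nonneg (‖z.1‖ * Q - ‖w.1‖ * P)]

theorem nm_add (z w : E d) : nm (z + w) ≤ nm z + nm w := by
  have h1 := N_add z w
  have h2 : (ip z w).re ≤ nm z * nm w := (Complex.re_le_norm _).trans (cs z w)
  have h3 : N (z + w) ≤ (nm z + nm w) ^ 2 := by
    rw [h1, ← nm_sq z, ← nm_sq w]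
    nlinarith
  unfold nm at h3 ⊢
  exact (Real.sqrt_le_left (by positivity)).2 h3

theorem ip_le_len {z : E d} (hz : z ∈ B d) (ξ : E d) : ‖ip ξ z‖ ≤ (1 - N z) * len z ξ := by
  have h : 0 < 1 - N z := sub_pos.2 hz
  have h0 := N_nonneg ξ
  have h1 : ‖ip ξ z‖ / (1 - N z) ≤ len z ξ := by
    unfold len
    apply Real.le_sqrt_of_sq_le
    unfold len2
    rw [div_pow]
    have : 0 ≤ N ξ / (1 - N z) := by positivity
    linarith
  rwa [div_le_iff₀ h, mul_comm] at h1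

theorem len_le_nm {z : E d} (hz : z ∈ B d) (ξ : E d) : len z ξ ≤ nm ξ / (1 - N z) := by
  have h : 0 < 1 - N z := sub_pos.2 hz
  have h0 := N_nonneg ξ
  have h2 := N_nonneg z
  have h3 := nm_nonneg ξ
  unfold len
  apply Real.sqrt_le_iff.2
  refine ⟨by positivity, ?_⟩
  unfold len2
  rw [div_pow, nm_sq, div_add_div _ _ h.ne' (pow_pos h 2).ne', div_le_div_iff₀ (by positivity)
    (by positivity)]
  have h4 : ‖ip ξ z‖ ^ 2 ≤ N ξ * N z := by
    rw [← nm_sq ξ, ← nm_sq z, ← mul_pow]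
    exact pow_le_pow_left₀ (norm_nonneg _) (cs ξ z) 2
  have h5 : N ξ * (1 - N z) ^ 2 + (1 - N z) * ‖ip ξ z‖ ^ 2 ≤ N ξ * (1 - N z) := by
    have : (1 - N z) * ‖ip ξ z‖ ^ 2 ≤ (1 - N z) * (N ξ * N z) :=
      mul_le_mul_of_nonneg_left h4 h.le
    nlinarith
  nlinarith [mul_le_mul_of_nonneg_right h5 (sq_nonneg (1 - N z))]

theorem N_contDiff : ContDiff ℝ 1 (N : E d → ℝ) := by
  unfold N
  refine (contDiff_fst.norm_sq ℝ).add (ContDiff.sum fun i _ => ?_)
  exact ContDiff.norm_sq ℝ ((contDiff_apply ℝ ℂ i).comp contDiff_snd)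

theorem rsm (t : ℝ) (ξ : E d) : t • ξ = (t : ℂ) • ξ := by
  ext <;> simp

theorem fderiv_N (z ξ : E d) : fderiv ℝ N z ξ = 2 * (ip ξ z).re := by
  have h1 : DifferentiableAt ℝ (N : E d → ℝ) z :=
    (N_contDiff.differentiable one_ne_zero).differentiableAt
  rw [← h1.lineDeriv_eq_fderiv]
  unfold lineDeriv
  have h2 : (fun t : ℝ => N (z + t • ξ)) = fun t => N z + t ^ 2 * N ξ + 2 * t * (ip ξ z).re := by
    funext t
    rw [N_add, N_smul]
    have h3 : (ip z (t • ξ)).re = t * (ip ξ z).re := by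
      rw [← ip_conj, Complex.conj_re, rsm, ip_smul_left, Complex.re_ofReal_mul]
    rw [h3]
    ring
  rw [h2]
  have h4 : HasDerivAt (fun t : ℝ => N z + t ^ 2 * N ξ + 2 * t * (ip ξ z).re)
      (0 + (2 * (0 : ℝ) ^ 1 * 1) * N ξ + 2 * 1 * (ip ξ z).re) 0 := by
    refine ((hasDerivAt_const _ _).add ((HasDerivAt.pow (hasDerivAt_id _) 2).mul_const _)).add ?_
    exact ((hasDerivAt_id _).const_mul 2).mul_const _
  rw [h4.deriv]
  ring

/-- the cut-off function -/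
theorem exists_cut : ∃ (θ : ℝ → ℝ) (L : ℝ), ContDiff ℝ 1 θ ∧ (∀ t, t ≤ 1 → θ t = 1) ∧
    (∀ t, 2 ≤ t → θ t = 0) ∧ (∀ t, 0 ≤ θ t ∧ θ t ≤ 1) ∧ 0 ≤ L ∧ (∀ t, |deriv θ t| ≤ L) ∧
    ∀ t, t < 1 → deriv θ t = 0 := by
  have hc : ContDiff ℝ 1 (fun t : ℝ => Real.smoothTransition (2 - t)) :=
    Real.smoothTransition.contDiff.comp (contDiff_const.sub contDiff_id)
  have h1 : ∀ t : ℝ, t ≤ 1 → Real.smoothTransition (2 - t) = 1 := fun t ht =>
    Real.smoothTransition.one_of_one_le (by linarith)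
  have h2 : ∀ t : ℝ, 2 ≤ t → Real.smoothTransition (2 - t) = 0 := fun t ht =>
    Real.smoothTransition.zero_of_nonpos (by linarith)
  have h3 : ∀ t : ℝ, t < 1 → deriv (fun t : ℝ => Real.smoothTransition (2 - t)) t = 0 := by
    intro t ht
    have e : (fun t : ℝ => Real.smoothTransition (2 - t)) =ᶠ[𝓝 t] fun _ => 1 := by
      filter_upwards [Iio_mem_nhds ht] with s hs
      exact h1 s (le_of_lt hs)
    rw [e.deriv_eq, deriv_const]
  have h4 : ∀ t : ℝ, 2 < t → deriv (fun t : ℝ => Real.smoothTransition (2 - t)) t = 0 := by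
    intro t ht
    have e : (fun t : ℝ => Real.smoothTransition (2 - t)) =ᶠ[𝓝 t] fun _ => 0 := by
      filter_upwards [Ioi_mem_nhds ht] with s hs
      exact h2 s (le_of_lt hs)
    rw [e.deriv_eq, deriv_const]
  have hd : Continuous (deriv (fun t : ℝ => Real.smoothTransition (2 - t))) :=
    hc.continuous_deriv le_rfl
  obtain ⟨L, hL⟩ := (isCompact_Icc (a := (1 : ℝ)) (b := 2)).exists_bound_of_continuousOn
    hd.continuousOn
  refine ⟨_, max L 0, hc, h1, h2, fun t => ⟨Real.smoothTransition.nonneg _,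
    Real.smoothTransition.le_one _⟩, le_max_right _ _, fun t => ?_, h3⟩
  by_cases ht1 : t < 1
  · rw [h3 t ht1, abs_zero]; exact le_max_right _ _
  · by_cases ht2 : 2 < t
    · rw [h4 t ht2, abs_zero]; exact le_max_right _ _
    · exact (hL t ⟨not_lt.1 ht1, not_lt.1 ht2⟩).trans (le_max_left _ _)

theorem small {ω : ℝ → ℝ} (hm : Monotone ω) (h0 : ∀ t, 0 ≤ ω t ∧ ω t ≤ 1)
    (hI : ∫⁻ t in Ioo (0 : ℝ) 1, ENNReal.ofReal (ω t ^ 2 / t) ≠ ⊤) {s : ℝ} (hs : 0 < s) :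
    ∃ ε : ℝ, 0 < ε ∧ ε ≤ 1 / 4 ∧ ω (4 * ε) ≤ s ∧
      ∫⁻ t in Ioo (0 : ℝ) 1, ENNReal.ofReal (ω (min t (2 * ε)) ^ 2 / t) ≤ ENNReal.ofReal s := by
  have hlim : ∀ c : ℝ, 0 < c → ∃ δ : ℝ, 0 < δ ∧ ω δ ≤ c := by
    intro c hc
    by_contra hcon
    push Not at hcon
    have h1 : ∫⁻ t in Ioo (0 : ℝ) 1, ENNReal.ofReal (c ^ 2 / t) < ⊤ := by
      refine lt_of_le_of_lt (setLIntegral_mono' measurableSet_Ioo fun t ht => ?_)
        (lt_top_iff_ne_top.2 hI)
      have ht0 : 0 < t := ht.1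
      have h2 := hcon t ht0
      apply ENNReal.ofReal_le_ofReal
      gcongr
    have h2 : IntegrableOn (fun t : ℝ => c ^ 2 / t) (Ioo 0 1) := by
      refine ⟨(by fun_prop : Measurable fun t : ℝ => c ^ 2 / t).aestronglyMeasurable, ?_⟩
      rw [hasFiniteIntegral_iff_ofReal]
      · exact h1
      · filter_upwards [ae_restrict_mem measurableSet_Ioo] with t ht
        have ht0 : 0 < t := ht.1
        show (0 : ℝ) ≤ c ^ 2 / t
        positivity
    have h3 : IntegrableOn (fun t : ℝ => t⁻¹) (Ioo 0 1) := by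
      have h4 : IntegrableOn (fun t : ℝ => (c ^ 2)⁻¹ * (c ^ 2 / t)) (Ioo 0 1) :=
        h2.const_mul ((c ^ 2)⁻¹)
      refine IntegrableOn.congr_fun h4 (fun t ht => ?_) measurableSet_Ioo
      show (c ^ 2)⁻¹ * (c ^ 2 / t) = t⁻¹
      have : t ≠ 0 := ne_of_gt ht.1
      field_simp
    rw [← intervalIntegrable_iff_integrableOn_Ioo_of_le zero_le_one, intervalIntegrable_inv_iff]
      at h3
    rcases h3 with h3 | h3
    · exact zero_ne_one h3
    · exact h3 left_mem_uIcc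
  have hT : Tendsto (fun n : ℕ => ω (1 / ((n : ℝ) + 1))) atTop (𝓝 0) := by
    rw [Metric.tendsto_atTop]
    intro c hc
    obtain ⟨δ, hδ, h1⟩ := hlim (c / 2) (by positivity)
    obtain ⟨n0, hn0⟩ := exists_nat_one_div_lt hδ
    refine ⟨n0, fun n hn => ?_⟩
    rw [Real.dist_eq, sub_zero, abs_of_nonneg (h0 _).1]
    have h2 : 1 / ((n : ℝ) + 1) ≤ 1 / ((n0 : ℝ) + 1) := by
      have : (n0 : ℝ) ≤ n := by exact_mod_cast hn
      gcongr
    have h3 := hm (h2.trans hn0.le)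
    linarith
  have hJ : Tendsto (fun n : ℕ => ∫⁻ t in Ioo (0 : ℝ) 1,
      ENNReal.ofReal (ω (min t (2 * (1 / ((n : ℝ) + 1) / 4))) ^ 2 / t)) atTop
      (𝓝 (∫⁻ t in Ioo (0 : ℝ) 1, 0)) := by
    refine tendsto_lintegral_of_dominated_convergence
      (fun t => ENNReal.ofReal (ω t ^ 2 / t)) (fun n => ?_) (fun n => ?_) hI ?_
    · have h1 : Measurable ω := hm.measurable
      have h2 : Measurable fun t : ℝ => ω (min t (2 * (1 / ((n : ℝ) + 1) / 4))) :=
        h1.comp (measurable_id.min measurable_const)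
      exact ((h2.pow_const 2).div measurable_id).ennreal_ofReal
    · filter_upwards [ae_restrict_mem measurableSet_Ioo] with t ht
      have ht0 : 0 < t := ht.1
      apply ENNReal.ofReal_le_ofReal
      have h1 := hm (min_le_left t (2 * (1 / ((n : ℝ) + 1) / 4)))
      have h2 := (h0 (min t (2 * (1 / ((n : ℝ) + 1) / 4)))).1
      gcongr
    · filter_upwards [ae_restrict_mem measurableSet_Ioo] with t ht
      have ht0 : 0 < t := ht.1
      have h1 : Tendsto (fun n : ℕ => ω (1 / ((n : ℝ) + 1)) ^ 2 / t) atTop (𝓝 0) := by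
        have := (hT.pow 2).div_const t
        simpa using this
      have h2 : Tendsto (fun n : ℕ => ω (min t (2 * (1 / ((n : ℝ) + 1) / 4))) ^ 2 / t) atTop
          (𝓝 0) := by
        refine squeeze_zero (fun n => by positivity) (fun n => ?_) h1
        have h3 : min t (2 * (1 / ((n : ℝ) + 1) / 4)) ≤ 1 / ((n : ℝ) + 1) := by
          refine (min_le_right _ _).trans ?_
          have : 0 < 1 / ((n : ℝ) + 1) := by positivity
          linarith
        have h4 := hm h3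
        have h5 := (h0 (min t (2 * (1 / ((n : ℝ) + 1) / 4)))).1
        gcongr
      have h3 := ENNReal.tendsto_ofReal h2
      rwa [ENNReal.ofReal_zero] at h3
  rw [lintegral_zero] at hJ
  have e1 := (hT.eventually (gt_mem_nhds hs))
  have e2 := hJ.eventually (gt_mem_nhds (ENNReal.ofReal_pos.2 hs))
  obtain ⟨n, hn1, hn2⟩ := (e1.and e2).exists
  refine ⟨1 / ((n : ℝ) + 1) / 4, by positivity, ?_, ?_, hn2.le⟩
  · have : 1 / ((n : ℝ) + 1) ≤ 1 := by
      rw [div_le_one (by positivity)]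
      have : (0 : ℝ) ≤ n := Nat.cast_nonneg n
      linarith
    linarith
  · have e : 4 * (1 / ((n : ℝ) + 1) / 4) = 1 / ((n : ℝ) + 1) := by ring
    rw [e]
    exact hn1.le

end Pool.Agent.N655.RJ
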