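import Mathlib
import Pool.Agent.N655.RJ.LA1

/-!
# Approximation near boundary points (helper655)
-/

set_option autoImplicit false

open Complex MeasureTheory Set Filter Topology
open scoped ENNReal

namespace Pool.Agent.N655.RJ

open Pool.Agent.N290.RJ

variable {d : ℕ}

/-- the cut-off on the ball -/
noncomputable def th (θ : ℝ → ℝ) (ε : ℝ) (z : E d) : ℂ := ((θ ((1 - N z) / ε) : ℝ) : ℂ)

theorem th_contDiff {θ : ℝ → ℝ} (hθ : ContDiff ℝ 1 θ) (ε : ℝ) :
    ContDiff ℝ 1 (th θ ε : E d → ℂ) := by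
  unfold th
  exact Complex.ofRealCLM.contDiff.comp
    (hθ.comp ((contDiff_const.sub N_contDiff).div_const ε))

theorem fderiv_th {θ : ℝ → ℝ} (hθ : ContDiff ℝ 1 θ) (ε : ℝ) (z ξ : E d) :
    fderiv ℝ (th θ ε) z ξ = ((deriv θ ((1 - N z) / ε) * (-(2 * (ip ξ z).re) / ε) : ℝ) : ℂ) := by
  have h1 : DifferentiableAt ℝ (N : E d → ℝ) z :=
    (N_contDiff.differentiable one_ne_zero).differentiableAt
  have h2 : HasFDerivAt (fun w : E d => (1 - N w) / ε) (ε⁻¹ • (-fderiv ℝ N z)) z := by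
    have h3 := (h1.hasFDerivAt.const_sub 1).const_smul ε⁻¹
    refine h3.congr_of_eventuallyEq (Filter.Eventually.of_forall fun w => ?_)
    show (1 - N w) / ε = ε⁻¹ • (1 - N w)
    rw [smul_eq_mul, div_eq_inv_mul]
  have h4 : HasDerivAt θ (deriv θ ((1 - N z) / ε)) ((1 - N z) / ε) :=
    (hθ.differentiable one_ne_zero).differentiableAt.hasDerivAt
  have h5 := Complex.ofRealCLM.hasFDerivAt.comp z (h4.comp_hasFDerivAt z h2)
  have h6 : HasFDerivAt (th θ ε : E d → ℂ) _ z := h5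
  rw [h6.fderiv]
  simp only [ContinuousLinearMap.comp_apply, Complex.ofRealCLM_apply]
  congr 1
  show deriv θ ((1 - N z) / ε) * (ε⁻¹ * (-fderiv ℝ N z ξ)) = _
  rw [fderiv_N]
  ring

theorem norm_db_th {θ : ℝ → ℝ} (hθ : ContDiff ℝ 1 θ) {ε : ℝ} (hε : 0 < ε) (z ξ : E d) :
    ‖db (th θ ε) z ξ‖ ≤ |deriv θ ((1 - N z) / ε)| * (2 / ε) * ‖ip ξ z‖ := by
  have key : ∀ η : E d, ‖ip η z‖ = ‖ip ξ z‖ →
      ‖fderiv ℝ (th θ ε) z η‖ ≤ |deriv θ ((1 - N z) / ε)| * (2 / ε) * ‖ip ξ z‖ := by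
    intro η hη
    rw [fderiv_th hθ, Complex.norm_real, Real.norm_eq_abs, abs_mul, abs_div, abs_neg, abs_mul,
      abs_of_pos hε, abs_two, mul_assoc]
    refine mul_le_mul_of_nonneg_left ?_ (abs_nonneg _)
    rw [mul_div_right_comm]
    refine mul_le_mul_of_nonneg_left ?_ (by positivity)
    rw [← hη]
    exact Complex.abs_re_le_norm _
  unfold db
  rw [norm_div, Complex.norm_ofNat, div_le_iff₀ (by norm_num)]
  refine (norm_add_le _ _).trans ?_
  rw [norm_mul, Complex.norm_I, one_mul]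
  have h1 := key ξ rfl
  have h2 := key (I • ξ) (by rw [ip_smul_left, norm_mul, Complex.norm_I, one_mul])
  linarith

/-- the majorant -/
noncomputable def ee (ω : ℝ → ℝ) (D ε : ℝ) (z : E d) : ℝ :=
  D * (ω (min (1 - N z) (2 * ε)) ^ 2 +
    ω (4 * ε) * (if 1 - N z ≤ 2 * ε then Real.sqrt ((1 - N z) / (2 * ε)) else 0))

theorem ee_nonneg {ω : ℝ → ℝ} (h0 : ∀ t, 0 ≤ ω t ∧ ω t ≤ 1) {D : ℝ} (hD : 0 ≤ D) (ε : ℝ)
    (z : E d) : 0 ≤ ee ω D ε z := by
  unfold ee
  have h1 := (h0 (4 * ε)).1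
  refine mul_nonneg hD (add_nonneg (sq_nonneg _) (mul_nonneg h1 ?_))
  split_ifs
  · exact Real.sqrt_nonneg _
  · exact le_rfl

theorem ee_meas {ω : ℝ → ℝ} (hm : Monotone ω) (D ε : ℝ) : Measurable (ee ω D ε : E d → ℝ) := by
  unfold ee
  have h1 : Measurable (N : E d → ℝ) := N_continuous.measurable
  have h2 : Measurable fun z : E d => ω (min (1 - N z) (2 * ε)) :=
    hm.measurable.comp ((measurable_const.sub h1).min measurable_const)
  refine measurable_const.mul ((h2.pow_const 2).add (measurable_const.mul ?_))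
  refine Measurable.ite (measurableSet_le (measurable_const.sub h1) measurable_const) ?_
    measurable_const
  exact ((measurable_const.sub h1).div_const _).sqrt

theorem ker_meas (z : E d) : Measurable (fun w => ker z w) := by
  have h1 : Continuous (fun w : E d => ip z w) :=
    ip_continuous.comp (continuous_const.prodMk continuous_id)
  have h2 : Continuous (fun w : E d => Dl z w) := by
    unfold Dl
    have := N_continuous (d := d)
    fun_prop
  unfold Pool.Agent.N290.RJ.ker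
  have h3 : Continuous (fun w : E d => ‖1 - ip z w‖ ^ d) := by fun_prop
  have h4 : Continuous (fun w : E d => ‖1 - ip z w‖ * Real.sqrt (Dl z w) ^ (2 * d + 1)) := by
    fun_prop
  exact h3.measurable.div h4.measurable

/-- the integral of the majorant -/
theorem int_ee {c9 c9' : ℝ} (hc9 : 0 < c9) (hc9' : 0 < c9')
    (h9 : ∀ φ : ℝ → ℝ, Monotone φ → (∀ t, 0 ≤ φ t) →
      (∀ t, φ t ≤ 1) → ∀ z ∈ B d, ∫⁻ w in B d, ENNReal.ofReal (φ (1 - N w) * ker z w) ≤
      ENNReal.ofReal c9 * (1 + ∫⁻ t in Ioo (0 : ℝ) 1, ENNReal.ofReal (φ t / t)))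
    (h9' : ∀ ε : ℝ, 0 < ε → ε ≤ 1 →
      ∀ z ∈ B d, ∫⁻ w in B d, ENNReal.ofReal ((if 1 - N w ≤ ε then
        Real.sqrt ((1 - N w) / ε) else 0) * ker z w) ≤ ENNReal.ofReal c9')
    {ω : ℝ → ℝ} (hm : Monotone ω) (h0 : ∀ t, 0 ≤ ω t ∧ ω t ≤ 1) {D s ε : ℝ} (hD : 0 ≤ D)
    (hs : 0 < s) (hε : 0 < ε) (hε1 : ε ≤ 1 / 4) (hω : ω (4 * ε) ≤ s)
    (hJ : ∫⁻ t in Ioo (0 : ℝ) 1, ENNReal.ofReal (ω (min t (2 * ε)) ^ 2 / t) ≤ ENNReal.ofReal s)
    {z : E d} (hz : z ∈ B d) :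
    ∫⁻ w in B d, ENNReal.ofReal (ee ω D ε w * ker z w) ≤
      ENNReal.ofReal (D * (s * (2 * c9 + c9'))) := by
  have hω2 : ∀ t, ω (min t (2 * ε)) ^ 2 ≤ s := by
    intro t
    have h1 := hm ((min_le_right t (2 * ε)).trans (by linarith : 2 * ε ≤ 4 * ε))
    have h2 := h0 (min t (2 * ε))
    nlinarith
  have hA : ∫⁻ w in B d, ENNReal.ofReal (ω (min (1 - N w) (2 * ε)) ^ 2 * ker z w) ≤
      ENNReal.ofReal (c9 * (2 * s)) := by
    have h1 := h9 (fun t => ω (min t (2 * ε)) ^ 2 / s) (fun t t' h => by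
        have h2 := hm (min_le_min_right (2 * ε) h)
        have h3 := (h0 (min t (2 * ε))).1
        show ω (min t (2 * ε)) ^ 2 / s ≤ ω (min t' (2 * ε)) ^ 2 / s
        gcongr) (fun t => by positivity) (fun t => (div_le_one hs).2 (hω2 t)) z hz
    have e1 : ∫⁻ w in B d, ENNReal.ofReal (ω (min (1 - N w) (2 * ε)) ^ 2 * ker z w) =
        ENNReal.ofReal s * ∫⁻ w in B d,
          ENNReal.ofReal (ω (min (1 - N w) (2 * ε)) ^ 2 / s * ker z w) := by
      rw [← lintegral_const_mul' _ _ ENNReal.ofReal_ne_top]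
      congr 1
      funext w
      rw [← ENNReal.ofReal_mul hs.le]
      congr 1
      field_simp
    have e2 : ENNReal.ofReal s * ∫⁻ t in Ioo (0 : ℝ) 1,
        ENNReal.ofReal (ω (min t (2 * ε)) ^ 2 / s / t) =
        ∫⁻ t in Ioo (0 : ℝ) 1, ENNReal.ofReal (ω (min t (2 * ε)) ^ 2 / t) := by
      rw [← lintegral_const_mul' _ _ ENNReal.ofReal_ne_top]
      congr 1
      funext t
      rw [← ENNReal.ofReal_mul hs.le]
      congr 1
      field_simp
    rw [e1]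
    calc ENNReal.ofReal s * ∫⁻ w in B d,
          ENNReal.ofReal (ω (min (1 - N w) (2 * ε)) ^ 2 / s * ker z w) ≤
          ENNReal.ofReal s * (ENNReal.ofReal c9 * (1 + ∫⁻ t in Ioo (0 : ℝ) 1,
            ENNReal.ofReal (ω (min t (2 * ε)) ^ 2 / s / t))) := mul_le_mul_right h1 _
      _ = ENNReal.ofReal c9 * (ENNReal.ofReal s + ENNReal.ofReal s * ∫⁻ t in Ioo (0 : ℝ) 1,
            ENNReal.ofReal (ω (min t (2 * ε)) ^ 2 / s / t)) := by ring
      _ ≤ ENNReal.ofReal c9 * (ENNReal.ofReal s + ENNReal.ofReal s) := by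
          rw [e2]
          gcongr
      _ = ENNReal.ofReal (c9 * (2 * s)) := by
          rw [← ENNReal.ofReal_add hs.le hs.le, ← ENNReal.ofReal_mul hc9.le]
          congr 1
          ring
  have hB : ∫⁻ w in B d, ENNReal.ofReal ((if 1 - N w ≤ 2 * ε then
      Real.sqrt ((1 - N w) / (2 * ε)) else 0) * ker z w) ≤ ENNReal.ofReal c9' :=
    h9' (2 * ε) (by positivity) (by linarith) z hz
  have hif : ∀ w : E d, 0 ≤ (if 1 - N w ≤ 2 * ε then
      Real.sqrt ((1 - N w) / (2 * ε)) else 0) := by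
    intro w
    split_ifs
    · exact Real.sqrt_nonneg _
    · exact le_rfl
  have e3 : ∫⁻ w in B d, ENNReal.ofReal (ee ω D ε w * ker z w) =
      ENNReal.ofReal D * ((∫⁻ w in B d, ENNReal.ofReal (ω (min (1 - N w) (2 * ε)) ^ 2 * ker z w)) +
        ENNReal.ofReal (ω (4 * ε)) * ∫⁻ w in B d, ENNReal.ofReal ((if 1 - N w ≤ 2 * ε then
          Real.sqrt ((1 - N w) / (2 * ε)) else 0) * ker z w)) := by
    rw [← lintegral_const_mul' (ENNReal.ofReal (ω (4 * ε))) _ ENNReal.ofReal_ne_top,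
      ← lintegral_add_left', ← lintegral_const_mul' _ _ ENNReal.ofReal_ne_top]
    · congr 1
      funext w
      rw [← ENNReal.ofReal_mul (h0 _).1, ← ENNReal.ofReal_add, ← ENNReal.ofReal_mul hD]
      · congr 1
        unfold ee
        ring
      · exact mul_nonneg (sq_nonneg _) (ker_nonneg z w)
      · exact mul_nonneg (h0 _).1 (mul_nonneg (hif w) (ker_nonneg z w))
    · have h1 : Measurable (N : E d → ℝ) := N_continuous.measurable
      have h2 : Measurable fun z : E d => ω (min (1 - N z) (2 * ε)) :=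
        hm.measurable.comp ((measurable_const.sub h1).min measurable_const)
      exact ((h2.pow_const 2).mul (ker_meas z)).ennreal_ofReal.aemeasurable
  rw [e3]
  calc ENNReal.ofReal D * ((∫⁻ w in B d,
        ENNReal.ofReal (ω (min (1 - N w) (2 * ε)) ^ 2 * ker z w)) +
        ENNReal.ofReal (ω (4 * ε)) * ∫⁻ w in B d, ENNReal.ofReal ((if 1 - N w ≤ 2 * ε then
          Real.sqrt ((1 - N w) / (2 * ε)) else 0) * ker z w)) ≤
        ENNReal.ofReal D * (ENNReal.ofReal (c9 * (2 * s)) + ENNReal.ofReal s *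
          ENNReal.ofReal c9') := by
        gcongr
    _ = _ := by
        rw [← ENNReal.ofReal_mul hs.le, ← ENNReal.ofReal_add (by positivity) (by positivity),
          ← ENNReal.ofReal_mul hD]
        congr 1
        ring

/-- the localised difference -/
noncomputable def gm (θ : ℝ → ℝ) (ε : ℝ) (h : E d → ℂ) (z : E d) : ℂ :=
  th θ ε z * (h z - h ((1 - ε) • z))

theorem th_norm {θ : ℝ → ℝ} (hθ : ∀ t, 0 ≤ θ t ∧ θ t ≤ 1) (ε : ℝ) (z : E d) :
    ‖th θ ε z‖ ≤ 1 := by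
  unfold th
  rw [Complex.norm_real, Real.norm_eq_abs, abs_of_nonneg (hθ _).1]
  exact (hθ _).2

theorem diff_at {h : E d → ℂ} (hh : ContDiffOn ℝ 1 h (B d)) {z : E d} (hz : z ∈ B d) :
    DifferentiableAt ℝ h z :=
  (hh.differentiableOn one_ne_zero).differentiableAt (B_open.mem_nhds hz)

theorem dil_contDiffOn {h : E d → ℂ} (hh : ContDiffOn ℝ 1 h (B d)) {r : ℝ} (h0 : 0 ≤ r)
    (h1 : r ≤ 1) : ContDiffOn ℝ 1 (fun w : E d => h (r • w)) (B d) :=
  hh.comp (contDiff_const_smul r).contDiffOn fun _ hw => smul_mem_B hw h0 h1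

theorem gm_contDiffOn {θ : ℝ → ℝ} (hθ : ContDiff ℝ 1 θ) {ε : ℝ} (hε : 0 < ε) (hε1 : ε ≤ 1 / 4)
    {h : E d → ℂ} (hh : ContDiffOn ℝ 1 h (B d)) : ContDiffOn ℝ 1 (gm θ ε h) (B d) :=
  (th_contDiff hθ ε).contDiffOn.mul (hh.sub (dil_contDiffOn hh (by linarith) (by linarith)))

theorem gm_norm {θ : ℝ → ℝ} (hθ : ∀ t, 0 ≤ θ t ∧ θ t ≤ 1) {ε : ℝ} (hε : 0 < ε)
    (hε1 : ε ≤ 1 / 4) {h : E d → ℂ} {C : ℝ} (hC : ∀ z ∈ B d, ‖h z‖ ≤ C) {z : E d}
    (hz : z ∈ B d) : ‖gm θ ε h z‖ ≤ 2 * C := by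
  unfold gm
  rw [norm_mul]
  have h1 := th_norm hθ ε z
  have h2 := norm_sub_le (h z) (h ((1 - ε) • z))
  have h3 := hC z hz
  have h4 := hC _ (smul_mem_B hz (by linarith : 0 ≤ 1 - ε) (by linarith))
  have h5 := norm_nonneg (th θ ε z)
  have h6 := norm_nonneg (h z - h ((1 - ε) • z))
  nlinarith

theorem db_dil {h : E d → ℂ} (hh : ContDiffOn ℝ 1 h (B d)) {r : ℝ} (h0 : 0 ≤ r)
    (h1 : r ≤ 1) {z : E d} (hz : z ∈ B d) (ξ : E d) :
    db (fun w : E d => h (r • w)) z ξ = db h (r • z) (r • ξ) := by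
  have h2 : HasFDerivAt (fun w : E d => r • w) (r • ContinuousLinearMap.id ℂ (E d)) z :=
    (hasFDerivAt_id z).const_smul r
  have h3 := db_comp (γ := h) (φ := fun w : E d => r • w) h2.differentiableAt
    (diff_at hh (smul_mem_B hz h0 h1)) ξ
  rw [h2.fderiv] at h3
  exact h3

theorem N_dil {ε : ℝ} (hε : 0 < ε) (hε1 : ε ≤ 1 / 4) {z : E d} (hx : 1 - N z ≤ 2 * ε)
    {t : ℝ} (ht : 1 - ε ≤ t) : 1 - N (t • z) ≤ 4 * ε := by
  rw [N_smul]
  have h1 : 1 - 2 * ε ≤ t ^ 2 := by nlinarith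
  have h2 : 1 - 2 * ε ≤ N z := by linarith
  have h3 : (1 - 2 * ε) * (1 - 2 * ε) ≤ t ^ 2 * N z :=
    mul_le_mul h1 h2 (by linarith) (sq_nonneg _)
  nlinarith

/-- the estimate of the derivative -/
theorem db_gm (hS2 : S2 d) (hS3 : S3 d) {θ : ℝ → ℝ} (hθ : ContDiff ℝ 1 θ)
    (hθ2 : ∀ t, 2 ≤ t → θ t = 0) (hθ01 : ∀ t, 0 ≤ θ t ∧ θ t ≤ 1) {L : ℝ} (hL : 0 ≤ L)
    (hθL : ∀ t, |deriv θ t| ≤ L) (hθd : ∀ t, t < 1 → deriv θ t = 0)
    {ω : ℝ → ℝ} (hm : Monotone ω) (h0 : ∀ t, 0 ≤ ω t ∧ ω t ≤ 1) {C ε : ℝ} (hC : 0 < C)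
    (hε : 0 < ε) (hε1 : ε ≤ 1 / 4) {h : E d → ℂ} (hh : ContDiffOn ℝ 1 h (B d))
    (hf : ∀ z ∈ B d, ∀ ξ, ‖fderiv ℝ h z ξ‖ ≤ C * ω (1 - N z) * len z ξ)
    (hdb : ∀ z ∈ B d, ∀ ξ, ‖db h z ξ‖ ≤ C * ω (1 - N z) ^ 2 * len z ξ)
    {z : E d} (hz : z ∈ B d) (ξ : E d) :
    ‖db (gm θ ε h) z ξ‖ ≤ ee ω (C * (16 * L + 2)) ε z * len z ξ := by
  have hl := len_nonneg z ξ
  have hD : 0 ≤ C * (16 * L + 2) := by positivity
  by_cases hx : 2 * ε < 1 - N z
  · have h1 : gm θ ε h =ᶠ[𝓝 z] fun _ => 0 := by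
      have h2 : {w : E d | 2 * ε < 1 - N w} ∈ 𝓝 z :=
        (isOpen_lt continuous_const (continuous_const.sub N_continuous)).mem_nhds hx
      filter_upwards [h2] with w hw
      unfold gm th
      rw [hθ2 _ ((le_div_iff₀ hε).2 (le_of_lt hw)), Complex.ofReal_zero, zero_mul]
    have h3 : db (fun _ : E d => (0 : ℂ)) z ξ = 0 := by
      unfold db
      simp
    rw [db_congr h1, h3, norm_zero]
    exact mul_nonneg (ee_nonneg h0 hD ε z) hl
  push Not at hx
  have hx0 : 0 < 1 - N z := sub_pos.2 hz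
  have hnm1 : nm z < 1 := mem_B_nm.1 hz
  have hnm0 := nm_nonneg z
  have hnN : 1 - N z = (1 - nm z) * (1 + nm z) := by rw [← nm_sq]; ring
  have hr0 : 0 ≤ 1 - ε := by linarith
  have hr1 : 1 - ε ≤ 1 := by linarith
  have hrz : (1 - ε) • z ∈ B d := smul_mem_B hz hr0 hr1
  have ha0 := (h0 (4 * ε)).1
  have ha1 := (h0 (4 * ε)).2
  have hs0 : 0 ≤ Real.sqrt ((1 - N z) / (2 * ε)) := Real.sqrt_nonneg _
  -- the three terms
  have d1 : DifferentiableAt ℝ (th θ ε : E d → ℂ) z :=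
    ((th_contDiff hθ ε).differentiable one_ne_zero).differentiableAt
  have d2 := diff_at hh hz
  have d3 : DifferentiableAt ℝ (fun w : E d => h ((1 - ε) • w)) z :=
    diff_at (dil_contDiffOn hh hr0 hr1) hz
  have e1 : db (gm θ ε h) z ξ = th θ ε z * (db h z ξ - db h ((1 - ε) • z) ((1 - ε) • ξ)) +
      (h z - h ((1 - ε) • z)) * db (th θ ε) z ξ := by
    have e2 := db_mul d1 (d2.sub d3) ξ
    have e3 := db_sub d2 d3 ξ
    rw [db_dil hh hr0 hr1 hz] at e3
    rw [← e3]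
    exact e2
  have T2 : ‖db h z ξ‖ ≤ C * ω (min (1 - N z) (2 * ε)) ^ 2 * len z ξ := by
    rw [min_eq_left hx]
    exact hdb z hz ξ
  have T3 : ‖db h ((1 - ε) • z) ((1 - ε) • ξ)‖ ≤
      C * (2 * ω (4 * ε) * Real.sqrt ((1 - N z) / (2 * ε))) * len z ξ := by
    have h1 := hdb _ hrz ((1 - ε) • ξ)
    have h2 := hm (N_dil hε hε1 hx (le_refl (1 - ε)))
    have h3 := (h0 (1 - N ((1 - ε) • z))).1
    have h4 : ω (1 - N ((1 - ε) • z)) ^ 2 ≤ ω (4 * ε) := by nlinarith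
    have h5 : len ((1 - ε) • z) ((1 - ε) • ξ) ≤
        2 * Real.sqrt ((1 - N z) / (2 * ε)) * len z ξ := by
      rw [len_smul hr0]
      have h6 := (hS2 z hz (1 - ε) hr0 hr1).1 ξ
      have h7 : (1 - nm z) / (1 - (1 - ε) * nm z) ≤ (1 - N z) / ε := by
        have h8 : ε ≤ 1 - (1 - ε) * nm z := by nlinarith
        have h9 : 1 - nm z ≤ 1 - N z := by nlinarith
        exact div_le_div₀ hx0.le h9 hε h8
      have h10 : Real.sqrt 2 * Real.sqrt ((1 - nm z) / (1 - (1 - ε) * nm z)) ≤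
          2 * Real.sqrt ((1 - N z) / (2 * ε)) := by
        rw [← Real.sqrt_mul (by norm_num)]
        apply Real.sqrt_le_iff.2
        refine ⟨by positivity, ?_⟩
        rw [mul_pow, Real.sq_sqrt (by positivity)]
        have : (2 : ℝ) ^ 2 * ((1 - N z) / (2 * ε)) = 2 * ((1 - N z) / ε) := by
          field_simp
        rw [this]
        exact mul_le_mul_of_nonneg_left h7 (by norm_num)
      have h11 := len_nonneg ((1 - ε) • z) ξ
      calc (1 - ε) * len ((1 - ε) • z) ξ ≤ 1 * len ((1 - ε) • z) ξ :=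
            mul_le_mul_of_nonneg_right hr1 h11
        _ ≤ Real.sqrt 2 * Real.sqrt ((1 - nm z) / (1 - (1 - ε) * nm z)) * len z ξ := by
            rw [one_mul]; exact h6
        _ ≤ _ := mul_le_mul_of_nonneg_right h10 hl
    calc ‖db h ((1 - ε) • z) ((1 - ε) • ξ)‖ ≤
        C * ω (1 - N ((1 - ε) • z)) ^ 2 * len ((1 - ε) • z) ((1 - ε) • ξ) := h1
      _ ≤ C * ω (4 * ε) * (2 * Real.sqrt ((1 - N z) / (2 * ε)) * len z ξ) := by
          have h12 := len_nonneg ((1 - ε) • z) ((1 - ε) • ξ)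
          gcongr
      _ = _ := by ring
  have T4 : ‖h z - h ((1 - ε) • z)‖ * ‖db (th θ ε) z ξ‖ ≤
      C * (16 * L * ω (4 * ε) * Real.sqrt ((1 - N z) / (2 * ε))) * len z ξ := by
    by_cases hxe : 1 - N z < ε
    · have h1 := norm_db_th hθ hε z ξ
      rw [hθd _ ((div_lt_one hε).2 hxe), abs_zero, zero_mul, zero_mul] at h1
      have h2 := le_antisymm h1 (norm_nonneg _)
      rw [h2, mul_zero]
      positivity
    · push Not at hxe
      have h1 : ‖db (th θ ε) z ξ‖ ≤ 4 * L * len z ξ := by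
        refine (norm_db_th hθ hε z ξ).trans ?_
        have h2 := ip_le_len hz ξ
        have h3 := hθL ((1 - N z) / ε)
        have h4 : 2 / ε * ‖ip ξ z‖ ≤ 4 * len z ξ := by
          have h5 : 2 / ε * ‖ip ξ z‖ ≤ 2 / ε * ((1 - N z) * len z ξ) :=
            mul_le_mul_of_nonneg_left h2 (by positivity)
          have h6 : 2 / ε * (1 - N z) ≤ 4 := by
            rw [div_mul_eq_mul_div, div_le_iff₀ hε]
            linarith
          have h7 : 2 / ε * (1 - N z) * len z ξ ≤ 4 * len z ξ :=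
            mul_le_mul_of_nonneg_right h6 hl
          linarith
        have h8 : 0 ≤ 2 / ε * ‖ip ξ z‖ := by positivity
        calc |deriv θ ((1 - N z) / ε)| * (2 / ε) * ‖ip ξ z‖ =
            |deriv θ ((1 - N z) / ε)| * (2 / ε * ‖ip ξ z‖) := by ring
          _ ≤ L * (4 * len z ξ) := mul_le_mul h3 h4 h8 hL
          _ = _ := by ring
      have h2 : ‖h z - h ((1 - ε) • z)‖ ≤ C * ω (4 * ε) * 2 := by
        have h3 := hS3 h z (1 - ε) 1 (C * ω (4 * ε)) (hh.differentiableOn one_ne_zero) hz hr0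
          hr1 le_rfl (fun t ht0 ht1 ζ => by
            have h4 := hf _ (smul_mem_B hz (hr0.trans ht0) ht1) ζ
            have h5 := hm (N_dil hε hε1 hx ht0)
            have h6 := len_nonneg (t • z) ζ
            refine h4.trans ?_
            gcongr)
        rw [one_smul, one_mul] at h3
        refine h3.trans (mul_le_mul_of_nonneg_left ?_ (by positivity))
        rw [div_le_iff₀ (by linarith)]
        nlinarith
      have h3 : (1 / 2 : ℝ) ≤ Real.sqrt ((1 - N z) / (2 * ε)) := by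
        apply Real.le_sqrt_of_sq_le
        rw [le_div_iff₀ (by positivity)]
        nlinarith
      calc ‖h z - h ((1 - ε) • z)‖ * ‖db (th θ ε) z ξ‖ ≤
          (C * ω (4 * ε) * 2) * (4 * L * len z ξ) :=
            mul_le_mul h2 h1 (norm_nonneg _) (by positivity)
        _ = C * (16 * L * ω (4 * ε) * (1 / 2)) * len z ξ := by ring
        _ ≤ _ := by gcongr
  have hth := th_norm hθ01 ε z
  have e4 : ‖db (gm θ ε h) z ξ‖ ≤ (‖db h z ξ‖ + ‖db h ((1 - ε) • z) ((1 - ε) • ξ)‖) +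
      ‖h z - h ((1 - ε) • z)‖ * ‖db (th θ ε) z ξ‖ := by
    rw [e1]
    refine (norm_add_le _ _).trans (add_le_add ?_ (norm_mul _ _).le)
    rw [norm_mul]
    have h1 := norm_sub_le (db h z ξ) (db h ((1 - ε) • z) ((1 - ε) • ξ))
    have h2 := norm_nonneg (db h z ξ - db h ((1 - ε) • z) ((1 - ε) • ξ))
    nlinarith [norm_nonneg (th θ ε z)]
  refine e4.trans ?_
  unfold ee
  rw [if_pos hx]
  have h5 : C * ω (min (1 - N z) (2 * ε)) ^ 2 * len z ξ ≤
      C * (16 * L + 2) * ω (min (1 - N z) (2 * ε)) ^ 2 * len z ξ := by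
    have : C ≤ C * (16 * L + 2) := by nlinarith
    gcongr
  calc _ ≤ (C * (16 * L + 2) * ω (min (1 - N z) (2 * ε)) ^ 2 * len z ξ +
        C * (2 * ω (4 * ε) * Real.sqrt ((1 - N z) / (2 * ε))) * len z ξ) +
        C * (16 * L * ω (4 * ε) * Real.sqrt ((1 - N z) / (2 * ε))) * len z ξ :=
        add_le_add (add_le_add (T2.trans h5) T3) T4
    _ = _ := by ring

theorem nm_neg (z : E d) : nm (-z) = nm z := by
  have h := N_smul (-1) z
  rw [neg_one_smul] at h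
  unfold nm
  rw [h]
  norm_num

/-- the mean value estimate inside a smaller ball -/
theorem mv {h : E d → ℂ} (hh : ContDiffOn ℝ 1 h (B d)) {C ε : ℝ} (hC : 0 < C) (hε : 0 < ε)
    (hε1 : ε ≤ 1 / 4) (hf : ∀ z ∈ B d, ∀ ξ, ‖fderiv ℝ h z ξ‖ ≤ C * len z ξ) {z p : E d}
    (hz : nm z ≤ 1) (hp : nm p ≤ 1) :
    ‖h ((1 - ε) • z) - h ((1 - ε) • p)‖ ≤ C / ε * nm (z - p) := by
  have hr0 : 0 ≤ 1 - ε := by linarith
  have hq : ∀ t : ℝ, 0 ≤ t → t ≤ 1 →
      nm ((1 - ε) • p + t • ((1 - ε) • (z - p))) ≤ 1 - ε := by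
    intro t ht0 ht1
    have e : (1 - ε) • p + t • ((1 - ε) • (z - p)) =
        ((1 - ε) * (1 - t)) • p + ((1 - ε) * t) • z := by
      module
    rw [e]
    have h1 := nm_add (((1 - ε) * (1 - t)) • p) (((1 - ε) * t) • z)
    have h2 : 0 ≤ (1 - ε) * (1 - t) := mul_nonneg hr0 (by linarith)
    have h3 : 0 ≤ (1 - ε) * t := mul_nonneg hr0 ht0
    rw [nm_smul _ h2, nm_smul _ h3] at h1
    nlinarith
  have hqB : ∀ t : ℝ, 0 ≤ t → t ≤ 1 → (1 - ε) • p + t • ((1 - ε) • (z - p)) ∈ B d := by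
    intro t ht0 ht1
    rw [mem_B_nm]
    have := hq t ht0 ht1
    linarith
  have h1 : ∀ t ∈ Icc (0 : ℝ) 1, HasDerivWithinAt
      (fun t : ℝ => h ((1 - ε) • p + t • ((1 - ε) • (z - p))))
      (fderiv ℝ h ((1 - ε) • p + t • ((1 - ε) • (z - p))) ((1 - ε) • (z - p)))
      (Icc (0 : ℝ) 1) t := by
    intro t ht
    have h2 : HasDerivAt (fun t : ℝ => (1 - ε) • p + t • ((1 - ε) • (z - p)))
        ((1 - ε) • (z - p)) t := by
      have h3 := ((hasDerivAt_id t).smul_const ((1 - ε) • (z - p))).const_add ((1 - ε) • p)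
      rw [one_smul] at h3
      exact h3
    exact ((diff_at hh (hqB t ht.1 ht.2)).hasFDerivAt.comp_hasDerivAt t h2).hasDerivWithinAt
  have h4 := norm_image_sub_le_of_norm_deriv_le_segment_01' h1 (C := C / ε * nm (z - p))
    (fun t ht => by
      have h5 := hqB t ht.1 ht.2.le
      have h6 := hq t ht.1 ht.2.le
      have h7 := nm_nonneg ((1 - ε) • p + t • ((1 - ε) • (z - p)))
      have h8 : ε ≤ 1 - N ((1 - ε) • p + t • ((1 - ε) • (z - p))) := by
        rw [← nm_sq]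
        nlinarith
      have h9 := nm_nonneg (z - p)
      refine (hf _ h5 _).trans ?_
      have h10 := len_le_nm h5 ((1 - ε) • (z - p))
      rw [nm_smul _ hr0] at h10
      have h11 : (1 - ε) * nm (z - p) / (1 - N ((1 - ε) • p + t • ((1 - ε) • (z - p)))) ≤
          nm (z - p) / ε := by
        apply div_le_div₀ h9 _ hε h8
        nlinarith
      calc C * len ((1 - ε) • p + t • ((1 - ε) • (z - p))) ((1 - ε) • (z - p)) ≤
          C * (nm (z - p) / ε) := mul_le_mul_of_nonneg_left (h10.trans h11) hC.le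
        _ = _ := by ring)
  have e1 : (1 - ε) • p + (1 : ℝ) • ((1 - ε) • (z - p)) = (1 - ε) • z := by module
  have e2 : (1 - ε) • p + (0 : ℝ) • ((1 - ε) • (z - p)) = (1 - ε) • p := by module
  rw [e1, e2] at h4
  exact h4

/-- RJ/LA -/
theorem LA_of (d : ℕ) (hC : Cmain d) (h9 : C9 d) (h9' : C9' d) (h2 : S2 d) (h3 : S3 d) :
    LA d := by
  intro C K ω hK hC0 hω hI η hη
  obtain ⟨hm, h0, -⟩ := hω
  obtain ⟨C₀, hC₀, hC⟩ := hC
  obtain ⟨c9, hc9, h9⟩ := h9
  obtain ⟨c9', hc9', h9'⟩ := h9'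
  obtain ⟨θ, L, hθ, hθ1, hθ2, hθ01, hL, hθL, hθd⟩ := exists_cut
  have hD : 0 < C * (16 * L + 2) := by positivity
  have hs : 0 < η / (2 * (C₀ * (C * (16 * L + 2)) * (2 * c9 + c9'))) := by positivity
  obtain ⟨ε, hε, hε1, hωε, hJ⟩ := small hm h0 hI hs
  refine ⟨min (ε / 2) (η * ε / (2 * C)), by positivity, ?_⟩
  intro p hp h hh hhC hf hdb
  obtain ⟨H0, hH0, hH⟩ := hC (gm θ ε h) (2 * C) (ee ω (C * (16 * L + 2)) ε)
    (gm_contDiffOn hθ hε hε1 hh) (fun z hz => gm_norm hθ01 hε hε1 hhC hz) (ee_meas hm _ ε)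
    (fun z _ => ee_nonneg h0 hD.le ε z)
    (fun z hz ξ => db_gm h2 h3 hθ hθ2 hθ01 hL hθL hθd hm h0 hC0 hε hε1 hh hf hdb hz ξ)
  refine ⟨fun z => H0 z + h ((1 - ε) • p), hH0.add_const _, ?_⟩
  intro z hz hzp
  have hnp : nm p = 1 := by
    unfold nm
    rw [hp, Real.sqrt_one]
  have hnz : nm z < 1 := mem_B_nm.1 hz
  have hnz0 := nm_nonneg z
  have h4 : ‖gm θ ε h z - H0 z‖ ≤ η / 2 := by
    have h5 := (hH z hz).trans (mul_le_mul_right
      (int_ee hc9 hc9' h9 h9' hm h0 hD.le hs hε hε1 hωε hJ hz) _)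
    rw [← ENNReal.ofReal_mul hC₀.le] at h5
    have e : C₀ * (C * (16 * L + 2) * (η / (2 * (C₀ * (C * (16 * L + 2)) * (2 * c9 + c9'))) *
        (2 * c9 + c9'))) = η / 2 := by
      have h6 : 2 * c9 + c9' ≠ 0 := by positivity
      field_simp
    rw [e] at h5
    exact (ENNReal.ofReal_le_ofReal_iff (by positivity)).1 h5
  have h5 : 1 - nm z ≤ nm (z - p) := by
    have h6 := nm_add z (p - z)
    have e1 : z + (p - z) = p := by abel
    have e2 : nm (p - z) = nm (z - p) := by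
      rw [← nm_neg]
      congr 1
      abel
    rw [e1, hnp, e2] at h6
    linarith
  have h6 : (1 - N z) / ε ≤ 1 := by
    rw [div_le_one hε, ← nm_sq]
    have h7 : nm (z - p) < ε / 2 := lt_of_lt_of_le hzp (min_le_left _ _)
    nlinarith
  have h7 : gm θ ε h z = h z - h ((1 - ε) • z) := by
    unfold gm th
    rw [hθ1 _ h6, Complex.ofReal_one, one_mul]
  have h8 : ‖h ((1 - ε) • z) - h ((1 - ε) • p)‖ ≤ η / 2 := by
    refine (mv hh hC0 hε hε1 (fun z hz ξ => ?_) hnz.le hnp.le).trans ?_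
    · refine (hf z hz ξ).trans ?_
      have h9 := h0 (1 - N z)
      have h10 := len_nonneg z ξ
      calc C * ω (1 - N z) * len z ξ ≤ C * 1 * len z ξ := by
            gcongr
            exact h9.2
        _ = _ := by ring
    · have h9 : nm (z - p) ≤ η * ε / (2 * C) := (lt_of_lt_of_le hzp (min_le_right _ _)).le
      calc C / ε * nm (z - p) ≤ C / ε * (η * ε / (2 * C)) := by gcongr
        _ = η / 2 := by field_simp
  have e3 : H0 z + h ((1 - ε) • p) - h z =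
      -(gm θ ε h z - H0 z) - (h ((1 - ε) • z) - h ((1 - ε) • p)) := by
    rw [h7]
    ring
  rw [e3]
  refine (norm_sub_le _ _).trans ?_
  rw [norm_neg]
  linarith

end Pool.Agent.N655.RJ
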